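import Mathlib
import Pool.Agent.P.MP_917f1f_al.Main

namespace Pool.Agent.Results.MP_917f1f_al.LinearBound

open Pool.Agent.Conway

theorem result {P : Type} [Fintype P] [DecidableEq P] {lam : ℕ} (D : Design P lam)
    (hl : 1 ≤ lam) (hn : 12 * lam + 9 ≤ Fintype.card P) (x : P) (s : Equiv.Perm P) :
    s ∈ groupoid D x ↔ (Even lam ∨ Equiv.Perm.sign s = 1) :=
  groupoid_of_alt D (by omega) x (alt_le_hole D hl hn x) s

end Pool.Agent.Results.MP_917f1f_al.LinearBound
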